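import Mathlib

set_option autoImplicit false

/-!
# Bounded extensions of biorthogonal functionals with dense sum (MP_b3b95b_an)
-/

open Set Filter Topology

namespace Pool.Agent.Results.MP_b3b95b_an.BoundedExtension

section defs

variable (𝕜 : Type*) [RCLike 𝕜] {E : Type*} [NormedAddCommGroup E] [NormedSpace 𝕜 E]

/-- the closed linear span `[x_n]` -/
abbrev closedSpan (x : ℕ → E) : Submodule 𝕜 E := (Submodule.span 𝕜 (range x)).topologicalClosure

lemma mem_closedSpan (x : ℕ → E) (n : ℕ) : x n ∈ closedSpan 𝕜 x :=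
  Submodule.le_topologicalClosure _ (Submodule.subset_span ⟨n, rfl⟩)

/-- `x` is a strictly bounded minimal sequence with associated functionals `φ n ∈ [x_n]^*` -/
structure StrictlyBoundedMinimal (x : ℕ → E) (φ : ℕ → (closedSpan 𝕜 x →L[𝕜] 𝕜)) : Prop where
  biorth : ∀ i j : ℕ, φ i ⟨x j, mem_closedSpan 𝕜 x j⟩ = if i = j then 1 else 0
  bdd_seq : ∃ C : ℝ, ∀ n, ‖x n‖ ≤ C
  bdd_fun : ∃ C : ℝ, ∀ n, ‖φ n‖ ≤ C

end defs

variable {𝕜 : Type*} [RCLike 𝕜] {E : Type*} [NormedAddCommGroup E] [NormedSpace 𝕜 E]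

/-- the functionals tend to zero pointwise -/
lemma tendsto_zero {x : ℕ → E} {φ : ℕ → (closedSpan 𝕜 x →L[𝕜] 𝕜)}
    (hbi : ∀ i j : ℕ, φ i ⟨x j, mem_closedSpan 𝕜 x j⟩ = if i = j then 1 else 0) {M : ℝ}
    (hM : ∀ n, ‖φ n‖ ≤ M) (v : closedSpan 𝕜 x) : Tendsto (fun n => φ n v) atTop (𝓝 0) := by
  have hM0 : 0 ≤ M := (norm_nonneg _).trans (hM 0)
  -- eventually zero on the linear span
  have hspan : ∀ w : E, ∀ hw : w ∈ Submodule.span 𝕜 (range x),
      ∀ᶠ n in atTop, φ n ⟨w, Submodule.le_topologicalClosure _ hw⟩ = 0 := by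
    intro w hw
    induction hw using Submodule.span_induction with
    | mem w h =>
      obtain ⟨j, rfl⟩ := h
      filter_upwards [eventually_gt_atTop j] with n hn
      have := hbi n j
      rw [if_neg hn.ne'] at this
      exact this
    | zero =>
      refine Eventually.of_forall fun n => ?_
      exact map_zero (φ n)
    | add a b ha hb iha ihb =>
      filter_upwards [iha, ihb] with n h1 h2
      have := map_add (φ n) ⟨a, Submodule.le_topologicalClosure _ ha⟩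
        ⟨b, Submodule.le_topologicalClosure _ hb⟩
      rw [h1, h2, add_zero] at this
      exact this
    | smul c a ha iha =>
      filter_upwards [iha] with n h1
      have := map_smul (φ n) c ⟨a, Submodule.le_topologicalClosure _ ha⟩
      rw [h1, smul_zero] at this
      exact this
  rw [Metric.tendsto_atTop]
  intro ε hε
  have hv : (v : E) ∈ closure (Submodule.span 𝕜 (range x) : Set E) := v.2
  obtain ⟨w, hw, hvw⟩ := Metric.mem_closure_iff.1 hv (ε / (M + 1)) (by positivity)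
  obtain ⟨N, hN⟩ := eventually_atTop.1 (hspan w hw)
  refine ⟨N, fun n hn => ?_⟩
  set w' : closedSpan 𝕜 x := ⟨w, Submodule.le_topologicalClosure _ hw⟩ with hw'
  have h1 : φ n v = φ n (v - w') := by rw [map_sub, hN n hn, sub_zero]
  have h2 : ‖v - w'‖ < ε / (M + 1) := by
    rw [dist_eq_norm] at hvw
    exact hvw
  rw [dist_zero_right, h1]
  calc ‖φ n (v - w')‖ ≤ M * ‖v - w'‖ := (φ n).le_of_opNorm_le (hM n) _
    _ ≤ M * (ε / (M + 1)) := by gcongr
    _ < ε := by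
        rw [mul_div_assoc', div_lt_iff₀ (by positivity)]
        nlinarith

/-- the key estimate -/
lemma key {x : ℕ → E} {φ : ℕ → (closedSpan 𝕜 x →L[𝕜] 𝕜)}
    (hbi : ∀ i j : ℕ, φ i ⟨x j, mem_closedSpan 𝕜 x j⟩ = if i = j then 1 else 0) {M : ℝ}
    (hM : ∀ n, ‖φ n‖ ≤ M) (Z : Submodule 𝕜 E) [FiniteDimensional 𝕜 Z]
    (hZ : Disjoint (closedSpan 𝕜 x) Z) :
    ∃ N : ℕ, ∀ n, N ≤ n → ∀ v : closedSpan 𝕜 x, ∀ z ∈ Z,
      ‖φ n v‖ ≤ (4 * M + 1) * ‖(v : E) + z‖ := by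
  have hM0 : 0 ≤ M := (norm_nonneg _).trans (hM 0)
  have hXc : IsClosed ((closedSpan 𝕜 x) : Set E) := Submodule.isClosed_topologicalClosure _
  -- the norm of `z` is controlled by the distance to `(closedSpan 𝕜 x)`
  obtain ⟨c, hc0, hc⟩ : ∃ c : ℝ, 0 ≤ c ∧ ∀ v ∈ (closedSpan 𝕜 x), ∀ z ∈ Z, ‖z‖ ≤ c * ‖v + z‖ := by
    set L : Z →ₗ[𝕜] (E ⧸ (closedSpan 𝕜 x)) := (closedSpan 𝕜 x).mkQ.comp Z.subtype with hL
    have hker : LinearMap.ker L = ⊥ := by
      rw [LinearMap.ker_eq_bot']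
      intro z hz
      have h1 : (z : E) ∈ (closedSpan 𝕜 x) := by
        rw [← Submodule.Quotient.mk_eq_zero]
        exact hz
      have h2 := Submodule.disjoint_def.1 hZ _ h1 z.2
      exact Subtype.ext h2
    obtain ⟨K, hK0, hK⟩ := L.exists_antilipschitzWith hker
    refine ⟨K, K.2, fun v hv z hz => ?_⟩
    have h1 := hK.le_mul_dist (⟨z, hz⟩ : Z) 0
    rw [dist_zero_right, map_zero, dist_zero_right] at h1
    have h2 : L ⟨z, hz⟩ = Submodule.Quotient.mk (v + z) := by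
      show Submodule.Quotient.mk z = Submodule.Quotient.mk (v + z)
      rw [Submodule.Quotient.mk_add, (Submodule.Quotient.mk_eq_zero (closedSpan 𝕜 x)).2 hv, zero_add]
    have h3 : ‖(Submodule.Quotient.mk (v + z) : E ⧸ (closedSpan 𝕜 x))‖ ≤ ‖v + z‖ :=
      Submodule.Quotient.norm_mk_le (closedSpan 𝕜 x) (v + z)
    calc ‖z‖ = ‖(⟨z, hz⟩ : Z)‖ := rfl
      _ ≤ K * ‖L ⟨z, hz⟩‖ := h1
      _ ≤ K * ‖v + z‖ := by rw [h2]; gcongr
  -- finite net
  have hcomp : IsCompact (Metric.closedBall (0 : Z) c) := isCompact_closedBall _ _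
  obtain ⟨t, ht, htf, hcov⟩ := hcomp.finite_cover_balls (e := 1) one_pos
  classical
  have hsel : ∀ z0 : Z, ∃ u : (closedSpan 𝕜 x), (∃ v : (closedSpan 𝕜 x), ‖(v : E) + z0‖ ≤ 2) → ‖(u : E) + z0‖ ≤ 2 := by
    intro z0
    by_cases h : ∃ v : (closedSpan 𝕜 x), ‖(v : E) + z0‖ ≤ 2
    · obtain ⟨v, hv⟩ := h
      exact ⟨v, fun _ => hv⟩
    · exact ⟨0, fun h' => absurd h' h⟩
  choose u hu using hsel
  have hev : ∀ᶠ n in atTop, ∀ z0 ∈ t, ‖φ n (u z0)‖ ≤ 1 := by
    rw [eventually_all_finite htf]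
    intro z0 _
    have h1 := (tendsto_zero hbi hM (u z0)).norm
    rw [norm_zero] at h1
    exact h1.eventually_le_const one_pos
  obtain ⟨N, hN⟩ := eventually_atTop.1 hev
  refine ⟨N, fun n hn v z hz => ?_⟩
  rcases (norm_nonneg ((v : E) + z)).eq_or_lt with h0 | h0
  · have h1 : (v : E) + z = 0 := norm_eq_zero.1 h0.symm
    have h2 : (v : E) = -z := eq_neg_of_add_eq_zero_left h1
    have h3 : (v : E) ∈ Z := by rw [h2]; exact Z.neg_mem hz
    have h4 : (v : E) = 0 := Submodule.disjoint_def.1 hZ _ v.2 h3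
    have h5 : v = 0 := Subtype.ext h4
    rw [h5, map_zero, norm_zero]
    positivity
  · set r := ‖(v : E) + z‖ with hr
    set k : 𝕜 := ((r⁻¹ : ℝ) : 𝕜) with hk
    have hkn : ‖k‖ = r⁻¹ := by
      rw [hk, RCLike.norm_ofReal, abs_of_pos (inv_pos.2 h0)]
    have hnorm : ‖((k • v : (closedSpan 𝕜 x)) : E) + k • z‖ = 1 := by
      rw [Submodule.coe_smul, ← smul_add, norm_smul, hkn, ← hr, inv_mul_cancel₀ h0.ne']
    have hz' : k • z ∈ Z := Z.smul_mem _ hz
    have hzc : ‖k • z‖ ≤ c := by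
      have := hc ((k • v : (closedSpan 𝕜 x)) : E) (k • v : (closedSpan 𝕜 x)).2 (k • z) hz'
      rwa [hnorm, mul_one] at this
    have hmem : (⟨k • z, hz'⟩ : Z) ∈ Metric.closedBall (0 : Z) c := by
      rw [mem_closedBall_zero_iff]
      exact hzc
    obtain ⟨z0, hz0, hd⟩ : ∃ z0 ∈ t, (⟨k • z, hz'⟩ : Z) ∈ Metric.ball z0 1 := by
      have := hcov hmem
      simpa using this
    have hd' : ‖k • z - (z0 : E)‖ < 1 := by
      rw [Metric.mem_ball, dist_eq_norm] at hd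
      exact hd
    have hex : ‖((k • v : (closedSpan 𝕜 x)) : E) + z0‖ ≤ 2 := by
      calc ‖((k • v : (closedSpan 𝕜 x)) : E) + z0‖ = ‖(((k • v : (closedSpan 𝕜 x)) : E) + k • z) - (k • z - (z0 : E))‖ := by
            congr 1; abel
        _ ≤ ‖((k • v : (closedSpan 𝕜 x)) : E) + k • z‖ + ‖k • z - (z0 : E)‖ := norm_sub_le _ _
        _ ≤ 2 := by rw [hnorm]; linarith
    have hu2 := hu z0 ⟨k • v, hex⟩
    have hdiff : ‖k • v - u z0‖ ≤ 4 := by
      calc ‖k • v - u z0‖ = ‖(((k • v : (closedSpan 𝕜 x)) : E) + z0) - ((u z0 : E) + z0)‖ := by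
            rw [add_sub_add_right_eq_sub]; rfl
        _ ≤ ‖((k • v : (closedSpan 𝕜 x)) : E) + z0‖ + ‖(u z0 : E) + z0‖ := norm_sub_le _ _
        _ ≤ 4 := by linarith
    have hb : ‖φ n (k • v)‖ ≤ 4 * M + 1 := by
      calc ‖φ n (k • v)‖ = ‖φ n (k • v - u z0) + φ n (u z0)‖ := by
            rw [← map_add, sub_add_cancel]
        _ ≤ ‖φ n (k • v - u z0)‖ + ‖φ n (u z0)‖ := norm_add_le _ _
        _ ≤ M * ‖k • v - u z0‖ + 1 := by
            gcongr
            · exact (φ n).le_of_opNorm_le (hM n) _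
            · exact hN n hn z0 hz0
        _ ≤ 4 * M + 1 := by nlinarith
    rw [map_smul, norm_smul, hkn] at hb
    have := mul_le_mul_of_nonneg_left hb h0.le
    rw [← mul_assoc, mul_inv_cancel₀ h0.ne', one_mul] at this
    linarith

/-- the growing finite-dimensional subspaces disjoint from `X` -/
lemma exists_growing (X : Submodule 𝕜 E) (d : ℕ → E) :
    ∃ Z : ℕ → Submodule 𝕜 E, Z 0 = ⊥ ∧ (∀ m, FiniteDimensional 𝕜 (Z m)) ∧
      (∀ m, Disjoint X (Z m)) ∧ Monotone Z ∧ ∀ m, d m ∈ X ⊔ Z (m + 1) := by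
  classical
  let Z : ℕ → Submodule 𝕜 E := fun m => Nat.rec ⊥
    (fun m W => if d m ∈ X ⊔ W then W else W ⊔ Submodule.span 𝕜 {d m}) m
  have hZ0 : Z 0 = ⊥ := rfl
  have hZs : ∀ m, Z (m + 1) =
      if d m ∈ X ⊔ Z m then Z m else Z m ⊔ Submodule.span 𝕜 {d m} := fun m => rfl
  refine ⟨Z, hZ0, ?_, ?_, ?_, ?_⟩
  · intro m
    induction m with
    | zero => rw [hZ0]; infer_instance
    | succ m ih =>
      by_cases h : d m ∈ X ⊔ Z m
      · have h1 : Z (m + 1) = Z m := by rw [hZs, if_pos h]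
        rw [h1]
        exact ih
      · have h1 : Z (m + 1) = Z m ⊔ Submodule.span 𝕜 {d m} := by rw [hZs, if_neg h]
        rw [h1]
        exact @Submodule.finiteDimensional_sup 𝕜 E _ _ _ (Z m) (Submodule.span 𝕜 {d m}) ih
          inferInstance
  · intro m
    induction m with
    | zero => rw [hZ0]; exact disjoint_bot_right
    | succ m ih =>
      rw [hZs]
      split_ifs with h
      · exact ih
      · rw [Submodule.disjoint_def]
        intro v hv hv'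
        obtain ⟨z, hz, w, hw, rfl⟩ := Submodule.mem_sup.1 hv'
        obtain ⟨c, rfl⟩ := Submodule.mem_span_singleton.1 hw
        by_cases hc : c = 0
        · subst hc
          rw [zero_smul, add_zero] at hv ⊢
          exact Submodule.disjoint_def.1 ih _ hv hz
        · exfalso
          apply h
          have h1 : d m = c⁻¹ • (z + c • d m) + (-(c⁻¹ • z)) := by
            rw [smul_add, smul_smul, inv_mul_cancel₀ hc, one_smul]
            abel
          rw [h1]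
          exact Submodule.add_mem_sup (X.smul_mem _ hv) ((Z m).neg_mem ((Z m).smul_mem _ hz))
  · refine monotone_nat_of_le_succ fun m => ?_
    rw [hZs]
    split_ifs with h
    · exact le_rfl
    · exact le_sup_left
  · intro m
    rw [hZs]
    split_ifs with h
    · exact h
    · exact (le_sup_right.trans le_sup_right : Submodule.span 𝕜 {d m} ≤
        X ⊔ (Z m ⊔ Submodule.span 𝕜 {d m})) (Submodule.mem_span_singleton_self _)

/-- Hahn–Banach extension vanishing on `Z` -/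
lemma exists_ext (X Z : Submodule 𝕜 E) (φ : X →L[𝕜] 𝕜) {C : ℝ} (hC : 0 ≤ C)
    (h : ∀ v : X, ∀ z ∈ Z, ‖φ v‖ ≤ C * ‖(v : E) + z‖) :
    ∃ f : E →L[𝕜] 𝕜, ‖f‖ ≤ C ∧ (∀ v : X, f v = φ v) ∧ ∀ z ∈ Z, f z = 0 := by
  let p : E →ₗ.[𝕜] 𝕜 := ⟨X, φ.toLinearMap⟩
  let q : E →ₗ.[𝕜] 𝕜 := ⟨Z, 0⟩
  have hpq : ∀ (a : p.domain) (b : q.domain), (a : E) = b → p a = q b := by
    intro a b hab
    show φ a = 0
    have h1 := h a (-(b : E)) (Z.neg_mem b.2)
    have h2 : (a : E) + -(b : E) = 0 := by rw [hab]; abel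
    rw [h2, norm_zero, mul_zero] at h1
    exact norm_le_zero_iff.1 h1
  let g := p.sup q hpq
  have hg : ∀ (a : X) (b : Z) (y : g.domain), (a : E) + b = y → g y = φ a := by
    intro a b y hy
    have := LinearPMap.sup_apply hpq a b y hy
    rw [this]
    show φ a + 0 = φ a
    rw [add_zero]
  have hbound : ∀ y : g.domain, ‖g.toFun y‖ ≤ C * ‖y‖ := by
    intro y
    obtain ⟨a, ha, b, hb, hab⟩ := Submodule.mem_sup.1 y.2
    have h1 : g.toFun y = φ ⟨a, ha⟩ := hg ⟨a, ha⟩ ⟨b, hb⟩ y hab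
    rw [h1]
    have h2 := h ⟨a, ha⟩ b hb
    have h3 : ‖y‖ = ‖a + b‖ := by rw [hab]; rfl
    rw [h3]
    exact h2
  let G : g.domain →L[𝕜] 𝕜 := g.toFun.mkContinuous C hbound
  obtain ⟨f, hf, hfn⟩ := exists_extension_norm_eq g.domain G
  refine ⟨f, ?_, ?_, ?_⟩
  · rw [hfn]
    exact LinearMap.mkContinuous_norm_le _ hC _
  · intro v
    have hv : (v : E) ∈ g.domain := Submodule.mem_sup_left v.2
    have h1 := hf ⟨v, hv⟩
    have h2 : G ⟨v, hv⟩ = φ v := hg v 0 ⟨v, hv⟩ (by simp)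
    rw [← h2, ← h1]
  · intro z hz
    have hz' : z ∈ g.domain := Submodule.mem_sup_right hz
    have h1 := hf ⟨z, hz'⟩
    have h2 : G ⟨z, hz'⟩ = φ 0 := hg 0 ⟨z, hz⟩ ⟨z, hz'⟩ (by simp)
    rw [map_zero] at h2
    rw [← h2, ← h1]

/-- the main theorem -/
theorem main [TopologicalSpace.SeparableSpace E] (x : ℕ → E)
    (φ : ℕ → (closedSpan 𝕜 x →L[𝕜] 𝕜)) (h : StrictlyBoundedMinimal 𝕜 x φ) :
    ∃ f : ℕ → (E →L[𝕜] 𝕜), (∀ (n : ℕ) (v : closedSpan 𝕜 x), f n (v : E) = φ n v) ∧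
      (∃ C : ℝ, ∀ n, ‖f n‖ ≤ C) ∧
      Dense ((closedSpan 𝕜 x ⊔ ⨅ n, LinearMap.ker (f n).toLinearMap : Submodule 𝕜 E) : Set E) := by
  classical
  obtain ⟨hbi, -, M, hM⟩ := h
  have hM0 : 0 ≤ M := (norm_nonneg _).trans (hM 0)
  set d : ℕ → E := TopologicalSpace.denseSeq E with hd
  obtain ⟨Z, hZ0, hZf, hZd, hZm, hZc⟩ := exists_growing (closedSpan 𝕜 x) d
  set P : ℕ → ℕ → Prop := fun m n => ∀ v : (closedSpan 𝕜 x), ∀ z ∈ Z m,
      ‖φ n v‖ ≤ (4 * M + 1) * ‖(v : E) + z‖ with hP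
  have hP0 : ∀ n, P 0 n := by
    intro n v z hz
    rw [hZ0, Submodule.mem_bot] at hz
    rw [hz, add_zero]
    calc ‖φ n v‖ ≤ M * ‖v‖ := (φ n).le_of_opNorm_le (hM n) _
      _ ≤ (4 * M + 1) * ‖(v : E)‖ := by
          have : ‖v‖ = ‖(v : E)‖ := rfl
          rw [this]
          gcongr
          linarith
  have hPe : ∀ m, ∃ N, ∀ n, N ≤ n → P m n := by
    intro m
    have := hZf m
    exact key hbi hM (Z m) (hZd m)
  set μ : ℕ → ℕ := fun n => Nat.findGreatest (fun m => P m n) n with hμ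
  have hPμ : ∀ n, P (μ n) n := fun n =>
    Nat.findGreatest_spec (P := fun m => P m n) (Nat.zero_le n) (hP0 n)
  have hμt : ∀ m, ∃ N, ∀ n, N ≤ n → m ≤ μ n := by
    intro m
    obtain ⟨N, hN⟩ := hPe m
    refine ⟨max N m, fun n hn => ?_⟩
    exact Nat.le_findGreatest (le_trans (le_max_right _ _) hn) (hN n (le_trans (le_max_left _ _) hn))
  have hfex : ∀ n, ∃ f : E →L[𝕜] 𝕜, ‖f‖ ≤ 4 * M + 1 ∧ (∀ v : (closedSpan 𝕜 x), f v = φ n v) ∧
      ∀ z ∈ Z (μ n), f z = 0 := fun n => exists_ext (closedSpan 𝕜 x) (Z (μ n)) (φ n) (by positivity) (hPμ n)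
  choose f hfn hfX hfZ using hfex
  refine ⟨f, hfX, ⟨4 * M + 1, hfn⟩, ?_⟩
  have hfx : ∀ i j : ℕ, f i (x j) = if i = j then 1 else 0 := by
    intro i j
    rw [← hbi i j]
    exact hfX i ⟨x j, mem_closedSpan 𝕜 x j⟩
  refine (TopologicalSpace.denseRange_denseSeq E).mono ?_
  rintro _ ⟨k, rfl⟩
  show d k ∈ (closedSpan 𝕜 x) ⊔ ⨅ n, LinearMap.ker (f n).toLinearMap
  obtain ⟨v, hv, z, hz, hvz⟩ := Submodule.mem_sup.1 (hZc k)
  obtain ⟨N, hN⟩ := hμt (k + 1)
  set w : E := ∑ n ∈ Finset.range N, f n z • x n with hw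
  have hwX : w ∈ (closedSpan 𝕜 x) := Submodule.sum_mem _ fun n _ => (closedSpan 𝕜 x).smul_mem _ (mem_closedSpan 𝕜 x n)
  have hker : z - w ∈ ⨅ n, LinearMap.ker (f n).toLinearMap := by
    rw [Submodule.mem_iInf]
    intro i
    rw [LinearMap.mem_ker]
    show f i (z - w) = 0
    rw [map_sub, hw, map_sum]
    have h1 : ∑ n ∈ Finset.range N, f i (f n z • x n) =
        ∑ n ∈ Finset.range N, if i = n then f n z else 0 := by
      refine Finset.sum_congr rfl fun n _ => ?_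
      rw [map_smul, hfx, smul_eq_mul]
      split_ifs <;> simp
    rw [h1, Finset.sum_ite_eq]
    split_ifs with hi
    · exact sub_self _
    · rw [Finset.mem_range, not_lt] at hi
      rw [sub_zero]
      exact hfZ i z (hZm (hN i hi) hz)
  have : d k = (v + w) + (z - w) := by rw [← hvz]; abel
  rw [this]
  exact Submodule.add_mem_sup ((closedSpan 𝕜 x).add_mem hv hwX) hker

/-- **Main result.**  Every strictly bounded minimal sequence in a separable Banach space over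
`ℝ` or `ℂ` has a norm-bounded sequence of extensions `f n` of its associated functionals with
`[x_n] + [f_n]_⊥` dense. -/
theorem result {𝕜 : Type*} [RCLike 𝕜] {E : Type*} [NormedAddCommGroup E] [NormedSpace 𝕜 E]
    [TopologicalSpace.SeparableSpace E] (x : ℕ → E)
    (φ : ℕ → (closedSpan 𝕜 x →L[𝕜] 𝕜)) (h : StrictlyBoundedMinimal 𝕜 x φ) :
    ∃ f : ℕ → (E →L[𝕜] 𝕜), (∀ (n : ℕ) (v : closedSpan 𝕜 x), f n (v : E) = φ n v) ∧
      (∃ C : ℝ, ∀ n, ‖f n‖ ≤ C) ∧
      Dense ((closedSpan 𝕜 x ⊔ ⨅ n, LinearMap.ker (f n).toLinearMap : Submodule 𝕜 E) : Set E) :=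
  main x φ h

end Pool.Agent.Results.MP_b3b95b_an.BoundedExtension
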